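import Pool.Agent.Q206.Bfin.Main

set_option autoImplicit false

/-!
# A bounded finite-one degree whose 1-degrees form a dense linear order (MP_d57ee4_lc, Q1)

The definitions are in `Pool/Agent/Q206/Bfin/Defs.lean`: `BfinRed` is bounded finite-one
reducibility, `OneDeg` is the partial order of 1-degrees (Mathlib's `OneOneReducible`), and
`oneDegrees A` is the set of the 1-degrees contained in the bounded finite-one degree of `A`.

`A` is generic for a forcing whose conditions are the computable functions `e` with `e 0 = 0`,
`e 1 = 1` all of whose fibres over the numbers `n + 2` have the same size `K` (then `A = Y ∘ e` for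
some `Y` with `Y 0 = 0`, `Y 1 = 1`); a condition is extended by composing with another such
function. Each `B = f⁻¹(A)` (`f` computable with bounded fibres) is treated by a condition for which
all fibres of `e ∘ f` over the numbers `n + 2` have the same size `s`, and the 1-degree of `B` is
determined by the rational number `s / K`.
-/

namespace Pool.Agent.Results.MP_d57ee4_lc.DenseLinear

open Q206.Bfin

theorem result : ∃ A : Set ℕ,
    (∀ d ∈ oneDegrees A, ∀ d' ∈ oneDegrees A, d ≤ d' ∨ d' ≤ d) ∧
    (∀ d ∈ oneDegrees A, ∀ d' ∈ oneDegrees A, d < d' →
      ∃ d'' ∈ oneDegrees A, d < d'' ∧ d'' < d') ∧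
    (oneDegrees A).Nontrivial ∧ Nonempty (oneDegrees A ≃o ℚ) := main

end Pool.Agent.Results.MP_d57ee4_lc.DenseLinear
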